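import Pool.Agent.Helper867_Rae.Stmts2

set_option autoImplicit false

/-! (8c): fixed points of a 2-subgroup on a normal 2'-subgroup. -/

namespace Pool.Agent.Helper887_Rae

open Pool.Agent.TH62.PL Pool.Agent.Helper867_Rae

section
variable {G : Type} [Group G]

/-- a 2-element of a 2'-group is trivial -/
lemma eq_one_of_mem {V S : Subgroup G} (hV : PF {2}ᶜ ⊥ V) (hS : IsPGroup 2 S) {x : G}
    (hx : x ∈ V) (hx' : x ∈ S) : x = 1 := by
  obtain ⟨m, ⟨_, hm⟩, h1⟩ := hV x hx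
  obtain ⟨k, hk⟩ := hS ⟨x, hx'⟩
  have h2 : x ^ 2 ^ k = 1 := congrArg Subtype.val hk
  have h3 : x ^ m = 1 := h1
  have h4 : ¬ 2 ∣ m := fun h => hm 2 Nat.prime_two h rfl
  have h5 : Nat.Coprime (2 ^ k) m := by
    apply Nat.Coprime.pow_left
    exact (Nat.Prime.coprime_iff_not_dvd Nat.prime_two).2 h4
  exact orderOf_eq_one_iff.1 (Nat.eq_one_of_dvd_coprimes h5 (orderOf_dvd_of_pow_eq_one h2)
    (orderOf_dvd_of_pow_eq_one h3))

lemma mem_cj (g x : G) (K : Subgroup G) :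
    x ∈ K.map (MulAut.conj g).toMonoidHom ↔ g⁻¹ * x * g ∈ K := by
  constructor
  · rintro ⟨y, hy, rfl⟩
    have : g⁻¹ * (MulAut.conj g).toMonoidHom y * g = y := by
      change g⁻¹ * (g * y * g⁻¹) * g = y
      group
    rw [this]
    exact hy
  · intro h
    refine ⟨_, h, ?_⟩
    change g * (g⁻¹ * x * g) * g⁻¹ = x
    group

/-- elements of `V ⊔ K` -/
lemma mem_sup_iff {V K : Subgroup G} (hVn : V.Normal) {x : G} :
    x ∈ V ⊔ K ↔ ∃ k ∈ K, x * k⁻¹ ∈ V := by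
  rw [Subgroup.mem_sup_of_normal_left]
  constructor
  · rintro ⟨v, hv, k, hk, rfl⟩
    exact ⟨k, hk, by rw [mul_inv_cancel_right]; exact hv⟩
  · rintro ⟨k, hk, h⟩
    exact ⟨_, h, k, hk, by rw [inv_mul_cancel_right]⟩

/-- a finite 2-subgroup `F` of `V T` is conjugate into `T` -/
lemma exists_conj_le (hG : LF G) {V T F : Subgroup G} (hVn : V.Normal) (hV : PF {2}ᶜ ⊥ V)
    (hT : IsPGroup 2 T) (hF : IsPGroup 2 F) (hFf : Finite F) (hFT : F ≤ V ⊔ T) :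
    ∃ g ∈ V ⊔ T, ∀ x ∈ F, g * x * g⁻¹ ∈ T := by
  classical
  set T0 : Subgroup G := T ⊓ (V ⊔ F) with hT0
  have hT0p : IsPGroup 2 T0 := hT.to_le inf_le_left
  -- `T0` is finite
  have hfin : Finite T0 := by
    have h1 : ∀ x : T0, ∃ f : F, (x : G) * (f : G)⁻¹ ∈ V := by
      intro x
      obtain ⟨f, hf, h⟩ := (mem_sup_iff hVn).1 x.2.2
      exact ⟨⟨f, hf⟩, h⟩
    choose φ hφ using h1
    refine Finite.of_injective φ ?_
    intro x y hxy
    have h2 := hφ x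
    have h3 := hφ y
    rw [← hxy] at h3
    have h4 : (x : G) * (y : G)⁻¹ ∈ V := by
      have := V.mul_mem h2 (V.inv_mem h3)
      have e : (x : G) * (φ x : G)⁻¹ * ((y : G) * (φ x : G)⁻¹)⁻¹ = (x : G) * (y : G)⁻¹ := by group
      rwa [e] at this
    have h5 : (x : G) * (y : G)⁻¹ ∈ T0 := T0.mul_mem x.2 (T0.inv_mem y.2)
    have h6 := eq_one_of_mem hV hT0p h4 h5
    exact Subtype.ext (mul_inv_eq_one.1 h6)
  set X : Subgroup G := F ⊔ T0 with hX
  have hXf : Finite X := by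
    apply hG
    have h1 : F.FG := (Group.fg_iff_subgroup_fg F).1 inferInstance
    have h2 : T0.FG := (Group.fg_iff_subgroup_fg T0).1 inferInstance
    exact h1.sup h2
  have hFX : F ≤ X := le_sup_left
  have hTX : T0 ≤ X := le_sup_right
  have hXV : X ≤ V ⊔ T0 := by
    refine sup_le ?_ le_sup_right
    intro f hf
    obtain ⟨t, ht, h⟩ := (mem_sup_iff hVn).1 (hFT hf)
    have ht0 : t ∈ T0 := by
      refine ⟨ht, ?_⟩
      have e : t = (f * t⁻¹)⁻¹ * f := by group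
      have h1 : (f * t⁻¹)⁻¹ * f ∈ V ⊔ F :=
        (V ⊔ F).mul_mem ((V ⊔ F).inv_mem (Subgroup.mem_sup_left h)) (Subgroup.mem_sup_right hf)
      rw [← e] at h1
      exact h1
    exact (mem_sup_iff hVn).2 ⟨t, ht0, h⟩
  have hF' : IsPGroup 2 (F.subgroupOf X) :=
    hF.comap_of_injective X.subtype X.subtype_injective
  have hT' : IsPGroup 2 (T0.subgroupOf X) :=
    hT0p.comap_of_injective X.subtype X.subtype_injective
  obtain ⟨P1, hP1⟩ := hF'.exists_le_sylow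
  obtain ⟨P2, hP2⟩ := hT'.exists_le_sylow
  have : Fact (Nat.Prime 2) := ⟨Nat.prime_two⟩
  obtain ⟨g, hg⟩ := MulAction.exists_smul_eq X P1 P2
  -- `P2 ≤ T0`
  have key : ∀ y : X, y ∈ P2 → (y : G) ∈ T0 := by
    intro y hy
    obtain ⟨t, ht, h⟩ := (mem_sup_iff hVn).1 (hXV y.2)
    have h1 : (⟨t, hTX ht⟩ : X) ∈ P2 := hP2 (by rw [Subgroup.mem_subgroupOf]; exact ht)
    have h2 : y * (⟨t, hTX ht⟩ : X)⁻¹ ∈ P2 := mul_mem hy (inv_mem h1)
    have h3 : IsPGroup 2 ((P2 : Subgroup X).map X.subtype) := P2.isPGroup'.map _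
    have h4 : (y : G) * t⁻¹ ∈ (P2 : Subgroup X).map X.subtype := ⟨_, h2, rfl⟩
    have h5 := eq_one_of_mem hV h3 h h4
    rw [mul_inv_eq_one] at h5
    rw [h5]; exact ht
  refine ⟨(g : G), ?_, ?_⟩
  · have h1 : X ≤ V ⊔ T := hXV.trans (sup_le_sup_left inf_le_left _)
    exact h1 g.2
  · intro x hx
    have h1 : (⟨x, hFX hx⟩ : X) ∈ P1 := hP1 (by rw [Subgroup.mem_subgroupOf]; exact hx)
    have h2 : g * (⟨x, hFX hx⟩ : X) * g⁻¹ ∈ P2 := by
      rw [← hg]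
      exact ⟨⟨x, hFX hx⟩, h1, rfl⟩
    exact (key _ h2).1

end

theorem fix : S_fix := by
  intro G _ hG hU V T hVn hV hT
  obtain ⟨F, hFH, hFf, hF, S, hSH, hS, hmax⟩ := hU (V ⊔ T)
  obtain ⟨g, hgH, hg⟩ := exists_conj_le hG hVn hV hT hF hFf hFH
  set F' : Subgroup G := F.map (MulAut.conj g).toMonoidHom with hF'
  set S' : Subgroup G := S.map (MulAut.conj g).toMonoidHom with hS'
  have hF'T : F' ≤ T := by
    rintro _ ⟨x, hx, rfl⟩
    exact hg x hx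
  have hF'f : Finite F' := by
    have : (F' : Set G).Finite := by
      rw [hF', Subgroup.coe_map]
      exact Set.Finite.image _ (Set.toFinite (F : Set G))
    exact this
  have hS'p : IsPGroup 2 S' := hS.map _
  have hmax' : ∀ T' : Subgroup G, T' ≤ V ⊔ T → IsPGroup 2 T' → F' ≤ T' → T' ≤ S' := by
    intro T' hT'H hT'p hle x hx
    rw [hS', mem_cj]
    have h1 : T'.map (MulAut.conj g⁻¹).toMonoidHom ≤ S := by
      refine hmax _ ?_ (hT'p.map _) ?_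
      · rintro _ ⟨y, hy, rfl⟩
        change g⁻¹ * y * g⁻¹⁻¹ ∈ V ⊔ T
        exact mul_mem (mul_mem (inv_mem hgH) (hT'H hy)) (inv_mem (inv_mem hgH))
      · intro y hy
        rw [mem_cj, inv_inv]
        exact hle ⟨y, hy, rfl⟩
    apply h1
    refine ⟨x, hx, ?_⟩
    change g⁻¹ * x * g⁻¹⁻¹ = _
    rw [inv_inv]
  refine ⟨F', hF'T, hF'f, ?_⟩
  intro v hv hc x hx
  have hxS : x ∈ S' := hmax' T le_sup_right hT hF'T hx
  have hF'S : F' ≤ S' := Subgroup.map_mono (hmax F hFH hF le_rfl)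
  have hS'H : S' ≤ V ⊔ T := by
    rintro _ ⟨y, hy, rfl⟩
    exact mul_mem (mul_mem hgH (hSH hy)) (inv_mem hgH)
  have h1 : S'.map (MulAut.conj v).toMonoidHom ≤ S' := by
    refine hmax' _ ?_ (hS'p.map _) ?_
    · rintro _ ⟨y, hy, rfl⟩
      exact mul_mem (mul_mem (Subgroup.mem_sup_left hv) (hS'H hy))
        (inv_mem (Subgroup.mem_sup_left hv))
    · intro y hy
      refine ⟨y, hF'S hy, ?_⟩
      change v * y * v⁻¹ = y
      rw [← hc y hy, mul_inv_cancel_right]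
  have h2 : v * x * v⁻¹ ∈ S' := h1 ⟨x, hxS, rfl⟩
  have h3 : v * x * v⁻¹ * x⁻¹ ∈ S' := S'.mul_mem h2 (S'.inv_mem hxS)
  have h4 : v * x * v⁻¹ * x⁻¹ ∈ V := by
    have e : v * x * v⁻¹ * x⁻¹ = v * (x * v⁻¹ * x⁻¹) := by group
    rw [e]
    exact V.mul_mem hv (hVn.conj_mem _ (V.inv_mem hv) x)
  have h5 := eq_one_of_mem hV hS'p h4 h3
  have h6 : v * x = (v * x * v⁻¹ * x⁻¹) * (x * v) := by group
  rw [h6, h5, one_mul]

end Pool.Agent.Helper887_Rae
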