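import Pool.Agent.Helper887_Rae.Four
import Pool.Agent.Helper887_Rae.Fix

set_option autoImplicit false

/-! (8e): elementary abelian 2-subgroups are finite. -/

namespace Pool.Agent.Helper887_Rae

open Pool.Agent.TH62.PL Pool.Agent.Helper867_Rae

section
variable {G : Type} [Group G]

/-- conjugation by a self-inverse element as an automorphism of a subgroup normalised by it -/
def cjEquiv (W : Subgroup G) (a : G) (ha : a * a = 1) (h : ∀ w ∈ W, a * w * a⁻¹ ∈ W) :
    W ≃* W where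
  toFun w := ⟨a * w * a⁻¹, h w w.2⟩
  invFun w := ⟨a * w * a⁻¹, h w w.2⟩
  left_inv w := by
    apply Subtype.ext
    change a * (a * w * a⁻¹) * a⁻¹ = w
    have e : a * (a * (w : G) * a⁻¹) * a⁻¹ = (a * a) * w * (a * a)⁻¹ := by group
    rw [e, ha]; simp
  right_inv w := by
    apply Subtype.ext
    change a * (a * w * a⁻¹) * a⁻¹ = w
    have e : a * (a * (w : G) * a⁻¹) * a⁻¹ = (a * a) * w * (a * a)⁻¹ := by group
    rw [e, ha]; simp
  map_mul' x y := by
    apply Subtype.ext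
    change a * ((x : G) * y) * a⁻¹ = (a * x * a⁻¹) * (a * y * a⁻¹)
    group

/-- a 2'-subgroup normalised by a four group is generated by three centralisers -/
lemma le_of_three {V W U : Subgroup G} (hV : PF {2}ᶜ ⊥ V) (hWV : W ≤ V) {a b : G}
    (ha : a * a = 1) (hb : b * b = 1) (hab : a * b = b * a) (hWa : ∀ w ∈ W, a * w * a⁻¹ ∈ W)
    (hWb : ∀ w ∈ W, b * w * b⁻¹ ∈ W) (h1 : ∀ w ∈ W, a * w = w * a → w ∈ U)
    (h2 : ∀ w ∈ W, b * w = w * b → w ∈ U) (h3 : ∀ w ∈ W, (b * a) * w = w * (b * a) → w ∈ U) :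
    W ≤ U := by
  have hodd : ∀ v : W, ∃ m, Odd m ∧ v ^ m = 1 := by
    intro v
    obtain ⟨m, ⟨_, hm⟩, hm'⟩ := hV v (hWV v.2)
    refine ⟨m, ?_, ?_⟩
    · rw [← Nat.not_even_iff_odd, even_iff_two_dvd]
      exact fun h => hm 2 Nat.prime_two h rfl
    · apply Subtype.ext
      exact hm'
  have key := four W hodd (cjEquiv W a ha hWa) (cjEquiv W b hb hWb)
    (fun v => (cjEquiv W a ha hWa).left_inv v) (fun v => (cjEquiv W b hb hWb).left_inv v)
    (fun v => by
      apply Subtype.ext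
      change a * (b * v * b⁻¹) * a⁻¹ = b * (a * v * a⁻¹) * b⁻¹
      have e1 : a * (b * (v : G) * b⁻¹) * a⁻¹ = (a * b) * v * (a * b)⁻¹ := by group
      have e2 : b * (a * (v : G) * a⁻¹) * b⁻¹ = (b * a) * v * (b * a)⁻¹ := by group
      rw [e1, e2, hab]) (U.subgroupOf W)
    (fun v hv => by
      have h : a * (v : G) * a⁻¹ = v := congrArg Subtype.val hv
      exact h1 v v.2 (by nth_rewrite 2 [← h]; group))
    (fun v hv => by
      have h : b * (v : G) * b⁻¹ = v := congrArg Subtype.val hv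
      exact h2 v v.2 (by nth_rewrite 2 [← h]; group))
    (fun v hv => by
      have h : a * (b * (v : G) * b⁻¹) * a⁻¹ = v := congrArg Subtype.val hv
      refine h3 v v.2 ?_
      rw [← hab]
      nth_rewrite 2 [← h]
      group)
  intro w hw
  have h4 : (⟨w, hw⟩ : W) ∈ U.subgroupOf W := by rw [key]; trivial
  exact h4

/-- the set of elements centralising `C_V(K)` -/
def CC (V K : Subgroup G) : Subgroup G :=
  Subgroup.centralizer ((V ⊓ Subgroup.centralizer (K : Set G) : Subgroup G) : Set G)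

lemma mem_CC {V K : Subgroup G} {x : G} :
    x ∈ CC V K ↔ ∀ v ∈ V, (∀ k ∈ K, k * v = v * k) → v * x = x * v := by
  rw [CC, Subgroup.mem_centralizer_iff]
  constructor
  · intro h v hv hk
    exact h v ⟨hv, Subgroup.mem_centralizer_iff.2 hk⟩
  · rintro h v ⟨hv, hk⟩
    exact h v hv (Subgroup.mem_centralizer_iff.1 hk)

lemma CC_mono {V K K' : Subgroup G} (h : K ≤ K') : CC V K ≤ CC V K' := by
  intro x hx
  rw [mem_CC] at hx ⊢
  exact fun v hv hk => hx v hv fun k hk' => hk k (h hk')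

lemma relIndex_mono {H K E : Subgroup G} (h : H ≤ K) (hH : H.relIndex E ≠ 0) :
    K.relIndex E ≠ 0 := fun h0 => hH (by
  have := Subgroup.relIndex_dvd_of_le_left E h
  rw [h0] at this
  exact Nat.eq_zero_of_zero_dvd this)

end

theorem ea : S_EA := by
  intro G _ V hVn hV hCV hfix E hE
  by_contra hinf
  have hEinf : Infinite E := not_finite_iff_infinite.1 hinf
  have hE2 : ∀ D : Subgroup G, D ≤ E → IsPGroup 2 D := by
    intro D hD x
    refine ⟨1, ?_⟩
    apply Subtype.ext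
    change (x : G) ^ 2 ^ 1 = 1
    rw [pow_one, pow_two]
    exact hE x (hD x.2)
  have hinv : ∀ x ∈ E, x⁻¹ = x := fun x hx => inv_eq_of_mul_eq_one_right (hE x hx)
  have hcomm : ∀ x ∈ E, ∀ y ∈ E, x * y = y * x := by
    intro x hx y hy
    have h1 := hinv _ (E.mul_mem hx hy)
    rw [mul_inv_rev, hinv x hx, hinv y hy] at h1
    exact h1.symm
  -- Zorn
  set 𝒮 : Set (Subgroup G) :=
    {D | D ≤ E ∧ ∀ H : Subgroup G, H ≤ D → Finite H → (CC V H).relIndex E = 0} with h𝒮
  have hbot : (⊥ : Subgroup G) ∈ 𝒮 := by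
    refine ⟨bot_le, ?_⟩
    intro H hH _
    have h1 : CC V H ⊓ E = ⊥ := by
      rw [eq_bot_iff]
      rintro x ⟨hx, hxE⟩
      have h2 : x ∈ V := by
        apply hCV
        intro y hy
        refine (mem_CC.1 hx y hy ?_).symm
        intro k hk
        have : k = 1 := hH hk
        rw [this, one_mul, mul_one]
      exact eq_one_of_mem hV (hE2 E le_rfl) h2 hxE
    rw [← Subgroup.inf_relIndex_right, h1, Subgroup.relIndex_bot_left]
    exact Nat.card_eq_zero_of_infinite
  obtain ⟨D, -, hD⟩ := zorn_le_nonempty₀ 𝒮 (by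
    intro c hc hchain y hy
    refine ⟨sSup c, ⟨sSup_le fun D hD => (hc hD).1, ?_⟩, fun z hz => le_sSup hz⟩
    intro H hH hHf
    have hdir : DirectedOn (· ≤ ·) c := hchain.directedOn
    have h1 : ∀ h : H, ∃ D : c, (h : G) ∈ (D : Subgroup G) := by
      intro h
      obtain ⟨D, hD, hh⟩ := (Subgroup.mem_sSup_of_directedOn ⟨y, hy⟩ hdir).1 (hH h.2)
      exact ⟨⟨D, hD⟩, hh⟩
    choose φ hφ using h1
    have : Nonempty c := ⟨⟨y, hy⟩⟩
    obtain ⟨z, hz⟩ := (directedOn_iff_directed.1 hdir).finite_le φ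
    refine (hc z.2).2 H ?_ hHf
    intro h hh
    exact hz ⟨h, hh⟩ (hφ ⟨h, hh⟩)) ⊥ hbot
  have hDS : D ∈ 𝒮 := hD.prop
  obtain ⟨hDE, hDH⟩ := hDS
  obtain ⟨F, hFD, hFf, hF⟩ := hfix D (hE2 D hDE)
  have hCD : (CC V D).relIndex E = 0 := by
    have h1 := hDH F hFD hFf
    by_contra h2
    refine relIndex_mono ?_ h2 h1
    intro x hx
    rw [mem_CC] at hx ⊢
    exact fun v hv hk => hx v hv (hF v hv hk)
  have hstep : ∀ x ∈ E, x ∉ D → (CC V (D ⊔ Subgroup.zpowers x)).relIndex E ≠ 0 := by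
    intro x hx hxD h0
    have h1 : D ⊔ Subgroup.zpowers x ∈ 𝒮 := by
      refine ⟨sup_le hDE ((Subgroup.zpowers_le).2 hx), ?_⟩
      intro H hH _
      by_contra h2
      exact relIndex_mono (CC_mono hH) h2 h0
    have h2 : D ⊔ Subgroup.zpowers x ≤ D := hD.le_of_ge h1 le_sup_left
    exact hxD (h2 (Subgroup.mem_sup_right (Subgroup.mem_zpowers x)))
  set C := CC V D with hC
  have hDC : D ≤ C := by
    intro x hx
    rw [hC, mem_CC]
    exact fun v _ hk => (hk x hx).symm
  -- the elements `a`, `b`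
  obtain ⟨a, haE, haC⟩ : ∃ a ∈ E, a ∉ C := by
    by_contra hcon
    push Not at hcon
    have : C.relIndex E = 1 := Subgroup.relIndex_eq_one.2 hcon
    omega
  obtain ⟨b, hbE, hbC, hbaC⟩ : ∃ b ∈ E, b ∉ C ∧ b * a ∉ C := by
    by_contra hcon
    push Not at hcon
    have : C.relIndex E = 2 := by
      rw [Subgroup.relIndex, Subgroup.index_eq_two_iff]
      refine ⟨⟨a, haE⟩, fun b => ?_⟩
      rw [Subgroup.mem_subgroupOf, Subgroup.mem_subgroupOf]
      by_cases hb : (b : G) ∈ C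
      · right
        refine ⟨hb, fun h => haC ?_⟩
        have h1 := C.mul_mem (C.inv_mem hb) h
        have e : (b : G)⁻¹ * ((b * ⟨a, haE⟩ : E) : G) = a := by
          change (b : G)⁻¹ * ((b : G) * a) = a
          group
        rwa [e] at h1
      · left
        exact ⟨hcon b b.2 hb, hb⟩
    omega
  have hbaE : b * a ∈ E := E.mul_mem hbE haE
  have ia := hstep a haE fun h => haC (hDC h)
  have ib := hstep b hbE fun h => hbC (hDC h)
  have iba := hstep (b * a) hbaE fun h => hbaC (hDC h)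
  have hI := Subgroup.relIndex_inf_ne_zero (Subgroup.relIndex_inf_ne_zero ia ib) iba
  refine relIndex_mono ?_ hI hCD
  rintro x ⟨⟨hxa, hxb⟩, hxba⟩
  -- `W = C_V(D)`
  set W : Subgroup G := V ⊓ Subgroup.centralizer (D : Set G) with hW
  have hWE : ∀ e ∈ E, ∀ w ∈ W, e * w * e⁻¹ ∈ W := by
    rintro e he w ⟨hw, hw'⟩
    replace hw' := Subgroup.mem_centralizer_iff.1 hw'
    refine ⟨hVn.conj_mem w hw e, Subgroup.mem_centralizer_iff.2 ?_⟩
    intro d hd
    have h1 := hw' d hd
    have h2 := hcomm d (hDE hd) e he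
    have h3 : d * e⁻¹ = e⁻¹ * d := by rw [hinv e he]; exact h2
    calc d * (e * w * e⁻¹) = (d * e) * w * e⁻¹ := by group
      _ = e * (d * w) * e⁻¹ := by rw [h2]; group
      _ = e * w * (d * e⁻¹) := by rw [h1]; group
      _ = e * w * e⁻¹ * d := by rw [h3]; group
  have hcz : ∀ y ∈ E, x ∈ CC V (D ⊔ Subgroup.zpowers y) → ∀ w ∈ W, y * w = w * y →
      w ∈ Subgroup.centralizer ({x} : Set G) := by
    rintro y hy hxy w ⟨hw, hw'⟩ hyw
    replace hw' := Subgroup.mem_centralizer_iff.1 hw'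
    rw [Subgroup.mem_centralizer_singleton_iff]
    have h1 := mem_CC.1 hxy w hw (by
      intro k hk
      have h2 : D ⊔ Subgroup.zpowers y ≤ Subgroup.centralizer ({w} : Set G) := by
        refine sup_le ?_ ((Subgroup.zpowers_le).2 ?_)
        · intro d hd
          rw [Subgroup.mem_centralizer_singleton_iff]
          exact (hw' d hd)
        · rw [Subgroup.mem_centralizer_singleton_iff]
          exact hyw
      have h3 := h2 hk
      rw [Subgroup.mem_centralizer_singleton_iff] at h3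
      exact h3)
    exact h1
  have hWU : W ≤ Subgroup.centralizer ({x} : Set G) :=
    le_of_three hV inf_le_left (hE a haE) (hE b hbE) (hcomm a haE b hbE) (hWE a haE) (hWE b hbE)
      (hcz a haE hxa) (hcz b hbE hxb) (hcz (b * a) hbaE hxba)
  rw [hC, mem_CC]
  intro v hv hk
  have h1 := hWU ⟨hv, Subgroup.mem_centralizer_iff.2 hk⟩
  rw [Subgroup.mem_centralizer_singleton_iff] at h1
  exact h1

end Pool.Agent.Helper887_Rae
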