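import Pool.Agent.Helper867_Rae.Stmts2

set_option autoImplicit false

/-! (8d): commuting involutory automorphisms of a group of odd exponents. -/

namespace Pool.Agent.Helper887_Rae

open Pool.Agent.TH62.PL Pool.Agent.Helper867_Rae

section
variable {V : Type} [Group V]

/-- existence of square roots -/
lemma exists_sqrt (hV : ∀ v : V, ∃ m, Odd m ∧ v ^ m = 1) (v : V) : ∃ u : V, u * u = v := by
  obtain ⟨m, ⟨k, rfl⟩, hm⟩ := hV v
  refine ⟨v ^ (k + 1), ?_⟩
  calc v ^ (k + 1) * v ^ (k + 1) = v ^ (2 * k + 1) * v := by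
        rw [← pow_add, ← pow_succ]
        congr 1
        ring
    _ = v := by rw [hm, one_mul]

/-- uniqueness of square roots -/
lemma sqrt_unique (hV : ∀ v : V, ∃ m, Odd m ∧ v ^ m = 1) {x y : V} (h : x * x = y * y) :
    x = y := by
  obtain ⟨m, hm, hxm⟩ := hV x
  obtain ⟨n, hn, hyn⟩ := hV y
  obtain ⟨k, hk⟩ := hm.mul hn
  have hx : x ^ (2 * k + 1) = 1 := by rw [← hk, pow_mul, hxm, one_pow]
  have hy : y ^ (2 * k + 1) = 1 := by rw [← hk, mul_comm, pow_mul, hyn, one_pow]
  have e1 : x = (x * x) ^ (k + 1) := by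
    calc x = x ^ (2 * k + 1) * x := by rw [hx, one_mul]
      _ = (x * x) ^ (k + 1) := by
        rw [← pow_two, ← pow_mul, ← pow_succ]
        congr 1
  have e2 : y = (y * y) ^ (k + 1) := by
    calc y = y ^ (2 * k + 1) * y := by rw [hy, one_mul]
      _ = (y * y) ^ (k + 1) := by
        rw [← pow_two, ← pow_mul, ← pow_succ]
        congr 1
  rw [e1, e2, h]

end

theorem four : S_four := by
  intro V _ hV a b ha hb hab W hWa hWb hWab
  -- elements inverted by `a`
  have key : ∀ u : V, a u = u⁻¹ → u ∈ W := by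
    intro u hu
    have hu' : a (b u) = (b u)⁻¹ := by rw [hab, hu, map_inv]
    obtain ⟨r, hr⟩ := exists_sqrt hV (u * b u)
    -- `a r`
    have har : a r = b u * r⁻¹ * (b u)⁻¹ := by
      apply sqrt_unique hV
      rw [← map_mul, hr, map_mul, hu, hu']
      have e1 : b u * r⁻¹ * (b u)⁻¹ * (b u * r⁻¹ * (b u)⁻¹) = b u * (r * r)⁻¹ * (b u)⁻¹ := by
        group
      rw [e1, hr]
      group
    have hbr : b r = b u * r * (b u)⁻¹ := by
      apply sqrt_unique hV
      rw [← map_mul, hr, map_mul, hb]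
      have e1 : b u * r * (b u)⁻¹ * (b u * r * (b u)⁻¹) = b u * (r * r) * (b u)⁻¹ := by
        group
      rw [e1, hr]
      group
    set s := r * (b u)⁻¹ with hs
    have hsu : s * b u * s = u := by
      have e1 : s * b u * s = (r * r) * (b u)⁻¹ := by rw [hs]; group
      rw [e1, hr]
      group
    have has : a s = s⁻¹ := by
      rw [hs, map_mul, map_inv, hu', har]
      group
    have hbs : b s = s⁻¹ := by
      rw [hs, map_mul, map_inv, hb, hbr]
      have e1 : b u * r * (b u)⁻¹ * u⁻¹ = b u * r * (u * b u)⁻¹ := by group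
      rw [e1, ← hr]
      group
    obtain ⟨n, hn⟩ := exists_sqrt hV s
    have han : a n = n⁻¹ := by
      apply sqrt_unique hV
      rw [← map_mul, hn, has, ← hn]
      group
    have hbn : b n = n⁻¹ := by
      apply sqrt_unique hV
      rw [← map_mul, hn, hbs, ← hn]
      group
    have hnW : n ∈ W := hWab n (by rw [hbn, map_inv, han, inv_inv])
    have hmW : n⁻¹ * u * n⁻¹ ∈ W := by
      apply hWb
      rw [map_mul, map_mul, map_inv, hbn, inv_inv]
      have e1 : b u = s⁻¹ * u * s⁻¹ := by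
        nth_rewrite 2 [← hsu]
        group
      rw [e1, ← hn]
      group
    have e2 : u = n * (n⁻¹ * u * n⁻¹) * n := by group
    rw [e2]
    exact W.mul_mem (W.mul_mem hnW hmW) hnW
  rw [eq_top_iff]
  intro w _
  obtain ⟨u, hu⟩ := exists_sqrt hV (w⁻¹ * a w)
  have hau : a u = u⁻¹ := by
    apply sqrt_unique hV
    rw [← map_mul, hu, map_mul, map_inv, ha]
    have e1 : u⁻¹ * u⁻¹ = (u * u)⁻¹ := by group
    rw [e1, hu]
    group
  have h1 : w * u ∈ W := by
    apply hWa
    rw [map_mul, hau]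
    have e1 : a w = w * (u * u) := by rw [hu]; group
    rw [e1]
    group
  have h2 : w = w * u * u⁻¹ := by group
  rw [h2]
  exact W.mul_mem h1 (W.inv_mem (key u hau))

end Pool.Agent.Helper887_Rae
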